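import Pool.Agent.Helper12.RQ.Goals

set_option autoImplicit false

open MeasureTheory Set Filter Topology Metric

open scoped ENNReal NNReal ContDiff Convolution

namespace Pool.Agent.Helper19.RQ

open Pool.Agent.Helper12.RQ

/-- crossing lemma -/
lemma crossing {X : Type} [TopologicalSpace X] (h : ℝ → X) (hc : Continuous h) (U K W L : Set X)
    (hU : IsOpen U) (hW : IsOpen W) (hK : IsClosed K) (hL : IsClosed L) (UK : U ⊆ K) (KW : K ⊆ W)
    (WL : W ⊆ L) (a b : ℝ) (hab : a < b) (ha : h a ∈ U) (hb : h b ∉ L) :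
    ∃ t₁ t₂, a ≤ t₁ ∧ t₁ < t₂ ∧ t₂ ≤ b ∧ (h t₁ ∈ K ∧ h t₁ ∉ U) ∧ (h t₂ ∈ L ∧ h t₂ ∉ W) ∧
      ∀ t ∈ Ioo t₁ t₂, h t ∈ W := by
  set S : Set ℝ := Icc a b ∩ h ⁻¹' Wᶜ with hS
  have hSc : IsCompact S := isCompact_Icc.inter_right (hW.isClosed_compl.preimage hc)
  have hbS : b ∈ S := ⟨⟨hab.le, le_rfl⟩, fun hbW => hb (WL hbW)⟩
  have ht2 : sInf S ∈ S := hSc.sInf_mem ⟨b, hbS⟩
  set t₂ := sInf S with ht2def
  have hlt : ∀ t, a ≤ t → t < t₂ → h t ∈ W := by
    intro t hat htt
    by_contra hn
    have htb : t ≤ b := htt.le.trans ht2.1.2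
    have : t ∈ S := ⟨⟨hat, htb⟩, hn⟩
    exact absurd (csInf_le hSc.bddBelow this) (not_le.2 htt)
  have hat2 : a < t₂ := by
    rcases lt_or_eq_of_le ht2.1.1 with h1 | h1
    · exact h1
    · exfalso
      apply ht2.2
      rw [← h1]
      exact KW (UK ha)
  have hclo : h t₂ ∈ closure W := by
    have h1 : t₂ ∈ closure (Ico a t₂) := by
      rw [closure_Ico hat2.ne]
      exact ⟨hat2.le, le_rfl⟩
    have h2 : h t₂ ∈ closure (h '' Ico a t₂) := image_closure_subset_closure_image hc ⟨t₂, h1, rfl⟩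
    refine closure_mono ?_ h2
    rintro _ ⟨t, ht, rfl⟩
    exact hlt t ht.1 ht.2
  have hL2 : h t₂ ∈ L := closure_minimal WL hL hclo
  set S' : Set ℝ := Icc a t₂ ∩ h ⁻¹' K with hS'
  have hS'c : IsCompact S' := isCompact_Icc.inter_right (hK.preimage hc)
  have haS' : a ∈ S' := ⟨⟨le_rfl, hat2.le⟩, UK ha⟩
  have ht1 : sSup S' ∈ S' := hS'c.sSup_mem ⟨a, haS'⟩
  set t₁ := sSup S' with ht1def
  have ht12 : t₁ < t₂ := by
    rcases lt_or_eq_of_le ht1.1.2 with h1 | h1
    · exact h1
    · exfalso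
      apply ht2.2
      rw [← h1]
      exact KW ht1.2
  have hnK : ∀ t, t₁ < t → t ≤ t₂ → h t ∉ K := by
    intro t h1 h2 hk
    have : t ∈ S' := ⟨⟨ht1.1.1.trans h1.le, h2⟩, hk⟩
    exact absurd (le_csSup hS'c.bddAbove this) (not_le.2 h1)
  refine ⟨t₁, t₂, ht1.1.1, ht12, ht2.1.2, ⟨ht1.2, ?_⟩, ⟨hL2, ht2.2⟩, ?_⟩
  · intro hU1
    have h1 : ∀ᶠ t in 𝓝[>] t₁, h t ∈ U :=
      (hc.tendsto t₁).mono_left nhdsWithin_le_nhds (hU.mem_nhds hU1)
    have h2 : ∀ᶠ t in 𝓝[>] t₁, t ∈ Ioo t₁ t₂ := Ioo_mem_nhdsGT ht12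
    obtain ⟨t, ht, ht'⟩ := (h1.and h2).exists
    exact hnK t ht'.1 ht'.2.le (UK ht)
  · intro t ht
    exact hlt t (ht1.1.1.trans ht.1.le) ht.2

/-- the smoothing kernel -/
lemma kernel (n : ℕ) (T : ℝ) (hT : 0 < T) : ∃ φ : E n → ℝ, Continuous φ ∧ HasCompactSupport φ ∧
    (∀ z, 0 ≤ φ z) ∧ (∃ M, ∀ z, φ z ≤ M) ∧ (∀ z, φ z ≠ 0 → ‖z‖ < T) ∧
    ∫⁻ z, ENNReal.ofReal (φ z) = 1 := by
  let bp : ContDiffBump (0 : E n) := ⟨T / 2, T, by positivity, by linarith⟩
  refine ⟨bp.normed volume, bp.continuous_normed, bp.hasCompactSupport_normed,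
    fun z => bp.nonneg_normed z, ?_, ?_, ?_⟩
  · obtain ⟨M, hM⟩ := (bp.continuous_normed (μ := volume)).bounded_above_of_compact_support
      bp.hasCompactSupport_normed
    exact ⟨M, fun z => (le_abs_self _).trans (hM z)⟩
  · intro z hz
    have : z ∈ Function.support (bp.normed volume) := hz
    rw [bp.support_normed_eq] at this
    simpa using this
  · rw [← ofReal_integral_eq_lintegral_ofReal bp.integrable_normed
      (Eventually.of_forall fun z => bp.nonneg_normed z), bp.integral_normed, ENNReal.ofReal_one]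

lemma le_one_add_rpow (t : ℝ≥0∞) (p : ℝ) (hp : 1 ≤ p) : t ≤ 1 + t ^ p := by
  rcases le_total t 1 with h | h
  · exact h.trans le_self_add
  · calc t = t ^ (1 : ℝ) := (ENNReal.rpow_one t).symm
      _ ≤ t ^ p := ENNReal.rpow_le_rpow_of_exponent_le h hp
      _ ≤ 1 + t ^ p := le_add_self

theorem mc1 : StmtMC1 := by
  intro n p hp G f hG hf x₀ r' r R hr' hr'r hrR hGR ρ hρm hadm hfin
  have hfin' : ∫⁻ x, ρ x ^ p ≠ ⊤ := hfin.ne
  -- topology
  have hinj : ∀ x ∈ G, ∀ y ∈ G, f x = f y → x = y := by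
    intro x hx y hy hxy
    have := hf.injective (a₁ := ⟨x, hx⟩) (a₂ := ⟨y, hy⟩) hxy
    exact congrArg Subtype.val this
  have hopen : ∀ V : Set (E n), IsOpen V → V ⊆ G → IsOpen (f '' V) := by
    intro V hV hVG
    have h1 : f '' V = (fun x : G => f x) '' (Subtype.val ⁻¹' V) := by
      ext y
      constructor
      · rintro ⟨x, hx, rfl⟩
        exact ⟨⟨x, hVG hx⟩, hx, rfl⟩
      · rintro ⟨x, hx, rfl⟩
        exact ⟨x, hx, rfl⟩
    rw [h1]
    exact hf.isOpenMap _ (hV.preimage continuous_subtype_val)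
  have hfc : ContinuousOn f G := by
    rw [continuousOn_iff_continuous_domRestrict]
    exact hf.continuous
  have hcomp : ∀ s : ℝ, s ≤ R → IsCompact (f '' closedBall x₀ s) := by
    intro s hs
    apply (isCompact_closedBall x₀ s).image_of_continuousOn
    exact hfc.mono ((closedBall_subset_closedBall hs).trans hGR)
  have hballR : ball x₀ R ⊆ G := ball_subset_closedBall.trans hGR
  have hballr : ball x₀ r ⊆ G := (ball_subset_ball hrR.le).trans hballR
  have hUo : IsOpen (f '' ball x₀ r) := hopen _ isOpen_ball hballr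
  have hWo : IsOpen (f '' ball x₀ R) := hopen _ isOpen_ball hballR
  have hKr' : f '' closedBall x₀ r' ⊆ f '' ball x₀ r := image_mono (closedBall_subset_ball hr'r)
  obtain ⟨T, hT, hTU⟩ := (hcomp r' (hr'r.le.trans hrR.le)).exists_thickening_subset_open hUo hKr'
  obtain ⟨φ, hφc, hφs, hφn, ⟨M, hM⟩, hφT, hφ1⟩ := kernel n T hT
  set Φ : E n → ℝ≥0∞ := fun z => ENNReal.ofReal (φ z) with hΦ
  have hΦm : Measurable Φ := hφc.measurable.ennreal_ofReal
  set ρt : E n → ℝ≥0∞ := fun y => ∫⁻ z, Φ z * ρ (y - z) with hρt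
  -- translation
  have htr : ∀ y : E n, ∫⁻ z, ρ (y - z) ^ p = ∫⁻ z, ρ z ^ p := by
    intro y
    exact lintegral_sub_left_eq_self (fun z => ρ z ^ p) y
  -- bound
  have hbound : ∀ y, ρt y ≤ 1 + ENNReal.ofReal M * ∫⁻ x, ρ x ^ p := by
    intro y
    calc ρt y ≤ ∫⁻ z, Φ z * (1 + ρ (y - z) ^ p) := by
          apply lintegral_mono
          intro z
          exact mul_le_mul_right (le_one_add_rpow _ p hp.le) _
      _ = ∫⁻ z, (Φ z + Φ z * ρ (y - z) ^ p) := by
          congr 1
          ext z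
          rw [mul_add, mul_one]
      _ = (∫⁻ z, Φ z) + ∫⁻ z, Φ z * ρ (y - z) ^ p := lintegral_add_left hΦm _
      _ ≤ 1 + ENNReal.ofReal M * ∫⁻ x, ρ x ^ p := by
          rw [hφ1]
          apply add_le_add_right
          rw [← htr y, ← lintegral_const_mul']
          · apply lintegral_mono
            intro z
            exact mul_le_mul_left (ENNReal.ofReal_le_ofReal (hM z)) _
          · exact ENNReal.ofReal_ne_top
  have hBtop : 1 + ENNReal.ofReal M * ∫⁻ x, ρ x ^ p ≠ ⊤ :=
    ENNReal.add_ne_top.2 ⟨ENNReal.one_ne_top, ENNReal.mul_ne_top ENNReal.ofReal_ne_top hfin'⟩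
  have hρtfin : ∀ y, ρt y ≠ ⊤ := fun y => ne_top_of_le_ne_top hBtop (hbound y)
  have hofReal : ∀ y, ENNReal.ofReal ((ρt y).toReal) = ρt y := fun y =>
    ENNReal.ofReal_toReal (hρtfin y)
  -- continuity
  have hloc : LocallyIntegrable (fun x => (ρ x).toReal) (volume : Measure (E n)) := by
    rw [locallyIntegrable_iff]
    intro k hk
    have h1 : ∫⁻ x in k, ρ x ≠ ⊤ := by
      have : ∫⁻ x in k, ρ x ≤ volume k + ∫⁻ x, ρ x ^ p := by
        calc ∫⁻ x in k, ρ x ≤ ∫⁻ x in k, (1 + ρ x ^ p) :=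
              lintegral_mono fun x => le_one_add_rpow _ p hp.le
          _ = (∫⁻ x in k, 1) + ∫⁻ x in k, ρ x ^ p := lintegral_add_left measurable_const _
          _ ≤ volume k + ∫⁻ x, ρ x ^ p := by
              rw [setLIntegral_one]
              exact add_le_add_right (setLIntegral_le_lintegral _ _) _
      exact ne_top_of_le_ne_top (ENNReal.add_ne_top.2 ⟨hk.measure_lt_top.ne, hfin'⟩) this
    exact integrable_toReal_of_lintegral_ne_top hρm.aemeasurable h1
  have hcont : Continuous fun y => (ρt y).toReal := by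
    have h1 := hφs.continuous_convolution_left (ContinuousLinearMap.mul ℝ ℝ) hφc hloc
    have h2 : (fun y => (ρt y).toReal) =
        (φ ⋆[ContinuousLinearMap.mul ℝ ℝ, volume] fun x => (ρ x).toReal) := by
      ext y
      rw [convolution_def, hρt]
      simp only [ContinuousLinearMap.mul_apply']
      rw [← integral_toReal]
      · congr 1
        ext z
        rw [ENNReal.toReal_mul, ENNReal.toReal_ofReal (hφn z)]
      · exact (hΦm.mul (hρm.comp (measurable_const.sub measurable_id))).aemeasurable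
      · apply ae_lt_top
        · exact hΦm.mul (hρm.comp (measurable_const.sub measurable_id))
        · exact hρtfin y
    rw [h2]
    exact h1
  -- Jensen
  have hjen : ∀ y, ρt y ^ p ≤ ∫⁻ z, Φ z * ρ (y - z) ^ p := by
    intro y
    have hpq : p.HolderConjugate (Real.conjExponent p) := Real.HolderConjugate.conjExponent hp
    have hgm : Measurable fun z => ρ (y - z) := hρm.comp (measurable_const.sub measurable_id)
    have h1 := ENNReal.lintegral_mul_le_Lp_mul_Lq (volume.withDensity Φ) hpq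
      (f := fun z => ρ (y - z)) (g := fun _ => 1) hgm.aemeasurable aemeasurable_const
    simp only [Pi.mul_apply, mul_one] at h1
    have h2 : ∫⁻ z, ρ (y - z) ∂(volume.withDensity Φ) = ρt y := by
      rw [lintegral_withDensity_eq_lintegral_mul _ hΦm hgm]
      rfl
    have h3 : ∫⁻ z, (ρ (y - z)) ^ p ∂(volume.withDensity Φ) = ∫⁻ z, Φ z * ρ (y - z) ^ p := by
      rw [lintegral_withDensity_eq_lintegral_mul _ hΦm (hgm.pow_const p)]
      rfl
    have h4 : ∫⁻ z, (1 : ℝ≥0∞) ^ (Real.conjExponent p) ∂(volume.withDensity Φ) = 1 := by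
      simp only [ENNReal.one_rpow, lintegral_one, MeasurableSet.univ, withDensity_apply,
        Measure.restrict_univ]
      exact hφ1
    rw [h2, h3, h4, ENNReal.one_rpow, mul_one] at h1
    calc ρt y ^ p ≤ ((∫⁻ z, Φ z * ρ (y - z) ^ p) ^ (1 / p)) ^ p :=
          ENNReal.rpow_le_rpow h1 (by linarith)
      _ = _ := by
          rw [← ENNReal.rpow_mul, one_div_mul_cancel (by linarith), ENNReal.rpow_one]
  have hLp : ∫⁻ y, ρt y ^ p ≤ ∫⁻ x, ρ x ^ p := by
    calc ∫⁻ y, ρt y ^ p ≤ ∫⁻ y, ∫⁻ z, Φ z * ρ (y - z) ^ p := lintegral_mono hjen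
      _ = ∫⁻ z, ∫⁻ y, Φ z * ρ (y - z) ^ p := by
          apply lintegral_lintegral_swap
          have : Measurable fun q : E n × E n => Φ q.2 * ρ (q.1 - q.2) ^ p :=
            (hΦm.comp measurable_snd).mul
              ((hρm.comp (measurable_fst.sub measurable_snd)).pow_const p)
          exact this.aemeasurable
      _ = ∫⁻ z, Φ z * ∫⁻ x, ρ x ^ p := by
          congr 1
          ext z
          have hm : Measurable fun y : E n => ρ (y - z) ^ p :=
            (hρm.comp (measurable_id.sub measurable_const)).pow_const p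
          rw [lintegral_const_mul _ hm]
          congr 1
          exact lintegral_sub_right_eq_self (fun x => ρ x ^ p) z
      _ = ∫⁻ x, ρ x ^ p := by
          rw [lintegral_mul_const _ hΦm, hφ1, one_mul]
  refine ⟨fun y => (ρt y).toReal, T, hT, hcont, ⟨(1 + ENNReal.ofReal M * ∫⁻ x, ρ x ^ p).toReal,
    fun y => ⟨ENNReal.toReal_nonneg, ENNReal.toReal_mono hBtop (hbound y)⟩⟩, ?_, ?_⟩
  · simp only [hofReal]
    exact hLp
  · intro γ hγa hγb
    simp only [hofReal]
    obtain ⟨K, hK⟩ := γ.lip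
    have hgc : Continuous γ.toFun := hK.continuous
    have hdm : Measurable fun t => ‖deriv γ.toFun t‖ₑ := (measurable_deriv γ.toFun).enorm
    have hswap : γ.lineInt ρt =
        ∫⁻ z, Φ z * ∫⁻ t in Icc γ.a γ.b, ρ (γ.toFun t - z) * ‖deriv γ.toFun t‖ₑ := by
      unfold Curve.lineInt
      have hm1 : ∀ t, Measurable fun z => Φ z * ρ (γ.toFun t - z) := fun t =>
        hΦm.mul (hρm.comp (measurable_const.sub measurable_id))
      calc ∫⁻ t in Icc γ.a γ.b, ρt (γ.toFun t) * ‖deriv γ.toFun t‖ₑ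
          = ∫⁻ t in Icc γ.a γ.b, ∫⁻ z, Φ z * ρ (γ.toFun t - z) * ‖deriv γ.toFun t‖ₑ := by
            congr 1
            ext t
            rw [hρt, lintegral_mul_const _ (hm1 t)]
        _ = ∫⁻ z, ∫⁻ t in Icc γ.a γ.b, Φ z * ρ (γ.toFun t - z) * ‖deriv γ.toFun t‖ₑ := by
            apply lintegral_lintegral_swap
            have : Measurable fun q : ℝ × E n =>
                Φ q.2 * ρ (γ.toFun q.1 - q.2) * ‖deriv γ.toFun q.1‖ₑ :=
              ((hΦm.comp measurable_snd).mul
                (hρm.comp ((hgc.measurable.comp measurable_fst).sub measurable_snd))).mul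
                (hdm.comp measurable_fst)
            exact this.aemeasurable
        _ = _ := by
            congr 1
            ext z
            rw [← lintegral_const_mul]
            · congr 1
              ext t
              rw [mul_assoc]
            · exact (hρm.comp (hgc.measurable.sub measurable_const)).mul hdm
    rw [hswap]
    rw [← hφ1]
    apply lintegral_mono
    intro z
    rcases eq_or_ne (φ z) 0 with hz | hz
    · simp [hΦ, hz]
    · have hzT : ‖z‖ < T := hφT z hz
      have key : 1 ≤ ∫⁻ t in Icc γ.a γ.b, ρ (γ.toFun t - z) * ‖deriv γ.toFun t‖ₑ := by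
        have ha : γ.toFun γ.a - z ∈ f '' ball x₀ r := by
          apply hTU
          rw [mem_thickening_iff]
          exact ⟨γ.toFun γ.a, hγa, by rw [dist_eq_norm]; simpa using hzT⟩
        have hb : γ.toFun γ.b - z ∉ f '' closedBall x₀ R := by
          intro hmem
          have h1 := infDist_le_dist_of_mem (x := γ.toFun γ.b) hmem
          rw [dist_eq_norm] at h1
          have h2 : ‖γ.toFun γ.b - (γ.toFun γ.b - z)‖ = ‖z‖ := by
            congr 1
            abel
          rw [h2] at h1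
          linarith
        obtain ⟨t₁, t₂, h1, h12, h2, ⟨hk1, hk2⟩, ⟨hl1, hl2⟩, hW⟩ :=
          crossing (fun t => γ.toFun t - z) (hgc.sub continuous_const) (f '' ball x₀ r)
            (f '' closedBall x₀ r) (f '' ball x₀ R) (f '' closedBall x₀ R) hUo hWo
            (hcomp r hrR.le).isClosed (hcomp R le_rfl).isClosed (image_mono ball_subset_closedBall)
            (image_mono (closedBall_subset_ball hrR)) (image_mono ball_subset_closedBall)
            γ.a γ.b γ.lt ha hb
        let δ : Curve n := ⟨t₁, t₂, h12, fun t => γ.toFun t - z, K, by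
          intro x y
          simpa using hK x y⟩
        have hδ : δ ∈ Delta (f '' sphere x₀ r) (f '' sphere x₀ R) (f '' G) := by
          refine ⟨?_, ?_, ?_⟩
          · obtain ⟨x, hx, hxe⟩ := hk1
            refine ⟨x, ?_, hxe⟩
            by_contra hns
            apply hk2
            refine ⟨x, ?_, hxe⟩
            rw [mem_ball]
            exact lt_of_le_of_ne hx hns
          · obtain ⟨x, hx, hxe⟩ := hl1
            refine ⟨x, ?_, hxe⟩
            by_contra hns
            apply hl2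
            refine ⟨x, ?_, hxe⟩
            rw [mem_ball]
            exact lt_of_le_of_ne hx hns
          · intro t ht
            exact image_mono hballR (hW t ht)
        have h3 := hadm δ hδ
        refine h3.trans ?_
        unfold Curve.lineInt
        have h4 : ∀ t, deriv δ.toFun t = deriv γ.toFun t := by
          intro t
          exact deriv_sub_const z
        simp only [h4]
        exact lintegral_mono_set (Icc_subset_Icc h1 h2)
      calc ENNReal.ofReal (φ z) = Φ z * 1 := by rw [mul_one]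
        _ ≤ _ := mul_le_mul_right key _

end Pool.Agent.Helper19.RQ
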